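import Pool.Agent.Helper68.DS.Goals

set_option autoImplicit false

/-!
# MP_52cd29_ag: the certificate theorem (packet CERT of helper68)
-/

namespace Pool.Agent.Helper61.DS

open MvPolynomial Pool.Agent.Helper68.DS

/-- The inclusion of binary forms in `x_0, x_1`. -/
noncomputable def rho : MvPolynomial (Fin 2) ℂ →ₐ[ℂ] MvPolynomial (Fin 4) ℂ :=
  aeval ![X 0, X 1]

theorem rho_X0 : rho (X 0) = X 0 := by simp [rho]

theorem rho_X1 : rho (X 1) = X 1 := by simp [rho]

theorem rho_C (c : ℂ) : rho (C c) = C c := by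
  rw [rho, aeval_C]; rfl

theorem rho_hom {d : ℕ} {g : MvPolynomial (Fin 2) ℂ} (hg : g ∈ HS 2 d) : rho g ∈ HS 4 d := by
  rw [mem_homogeneousSubmodule] at hg ⊢
  have h := hg.aeval (σ := Fin 2) (τ := Fin 4) (n := 1) ![X 0, X 1] (by
    intro i
    fin_cases i
    · exact isHomogeneous_X ℂ 0
    · exact isHomogeneous_X ℂ 1)
  simpa [rho] using h

theorem pr_rho {d : ℕ} (μ : ℂ) {g : MvPolynomial (Fin 2) ℂ} (hg : g ∈ HS 2 d) :
    pr μ (rho g) = C (eval ![μ, 1] g) * X 0 ^ d := by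
  rw [mem_homogeneousSubmodule] at hg
  have h1 : pr μ (rho g) = aeval ![C μ * X 0, X 0] g := by
    have : (pr μ).comp rho = aeval ![C μ * X 0, X 0] := by
      apply MvPolynomial.algHom_ext
      intro i
      fin_cases i <;> simp [rho, pr]
    rw [← this]; rfl
  rw [h1, aeval_def, eval₂_eq', eval_eq', map_sum, Finset.sum_mul]
  refine Finset.sum_congr rfl fun n hn => ?_
  have hd : n 0 + n 1 = d := by
    have := hg (mem_support_iff.mp hn)
    rw [Finsupp.weight_apply, Finsupp.sum_fintype _ _ (by simp)] at this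
    simpa using this
  simp only [Fin.prod_univ_two, Matrix.cons_val_zero, Matrix.cons_val_one, map_mul, map_pow, one_pow,
    mul_one, algebraMap_eq]
  rw [mul_pow, ← hd, pow_add]
  ring


/-! ### The object -/

/-- The diagonal. -/
noncomputable def bb (k : ℕ) (l : Fin k) : MvPolynomial (Fin 4) ℂ :=
  X 2 - C (((l : ℕ) : ℂ)) * X 3

/-- The entries above the diagonal. -/
noncomputable def uu (U : ℕ → ℕ) (μ : ℕ → ℂ) (m : ℕ) : MvPolynomial (Fin 4) ℂ :=
  if U m = 0 then X 0 else ell (μ (U m))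

/-- The entries below the diagonal. -/
noncomputable def vv (V : ℕ → ℕ) (μ : ℕ → ℂ) (m : ℕ) : MvPolynomial (Fin 4) ℂ :=
  if V m = 0 then X 1 else ell (μ (V m))

/-- The entries above the diagonal, in two variables. -/
noncomputable def uu2 (U : ℕ → ℕ) (μ : ℕ → ℂ) (m : ℕ) : MvPolynomial (Fin 2) ℂ :=
  if U m = 0 then X 0 else X 0 - C (μ (U m)) * X 1

/-- The entries below the diagonal, in two variables. -/
noncomputable def vv2 (V : ℕ → ℕ) (μ : ℕ → ℂ) (m : ℕ) : MvPolynomial (Fin 2) ℂ :=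
  if V m = 0 then X 1 else X 0 - C (μ (V m)) * X 1

theorem hom_sub {σ : Type} (i j : σ) (c : ℂ) :
    (X i - C c * X j : MvPolynomial σ ℂ).IsHomogeneous 1 := by
  have h1 : (X i : MvPolynomial σ ℂ).IsHomogeneous 1 := isHomogeneous_X ℂ i
  have h2 : (C c * X j : MvPolynomial σ ℂ).IsHomogeneous 1 := by
    simpa using (isHomogeneous_C σ c).mul (isHomogeneous_X ℂ j)
  exact h1.sub h2

theorem bb_hom (k : ℕ) (l : Fin k) : (bb k l).IsHomogeneous 1 := hom_sub _ _ _

theorem uu_hom (U : ℕ → ℕ) (μ : ℕ → ℂ) (m : ℕ) : (uu U μ m).IsHomogeneous 1 := by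
  unfold uu
  split_ifs
  · exact isHomogeneous_X ℂ 0
  · exact hom_sub _ _ _

theorem vv_hom (V : ℕ → ℕ) (μ : ℕ → ℂ) (m : ℕ) : (vv V μ m).IsHomogeneous 1 := by
  unfold vv
  split_ifs
  · exact isHomogeneous_X ℂ 1
  · exact hom_sub _ _ _

theorem uu2_hom (U : ℕ → ℕ) (μ : ℕ → ℂ) (m : ℕ) : (uu2 U μ m).IsHomogeneous 1 := by
  unfold uu2
  split_ifs
  · exact isHomogeneous_X ℂ 0
  · exact hom_sub _ _ _

theorem vv2_hom (V : ℕ → ℕ) (μ : ℕ → ℂ) (m : ℕ) : (vv2 V μ m).IsHomogeneous 1 := by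
  unfold vv2
  split_ifs
  · exact isHomogeneous_X ℂ 1
  · exact hom_sub _ _ _

theorem rho_uu2 (U : ℕ → ℕ) (μ : ℕ → ℂ) (m : ℕ) : rho (uu2 U μ m) = uu U μ m := by
  unfold uu uu2 ell
  split_ifs
  · exact rho_X0
  · rw [map_sub, map_mul, rho_X0, rho_X1, rho_C]

theorem rho_vv2 (V : ℕ → ℕ) (μ : ℕ → ℂ) (m : ℕ) : rho (vv2 V μ m) = vv V μ m := by
  unfold vv vv2 ell
  split_ifs
  · exact rho_X1
  · rw [map_sub, map_mul, rho_X0, rho_X1, rho_C]

theorem eval_uu2 (U : ℕ → ℕ) (μ : ℕ → ℂ) (m : ℕ) (y : ℂ) :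
    eval ![y, 1] (uu2 U μ m) = uval U μ m y := by
  unfold uu2 uval
  split_ifs
  · simp
  · simp

theorem eval_vv2 (V : ℕ → ℕ) (μ : ℕ → ℂ) (m : ℕ) (y : ℂ) :
    eval ![y, 1] (vv2 V μ m) = vval V μ m y := by
  unfold vv2 vval
  split_ifs
  · simp
  · simp

theorem prod_hom {σ ι : Type} (s : Finset ι) (f : ι → MvPolynomial σ ℂ)
    (h : ∀ i ∈ s, (f i).IsHomogeneous 1) : (∏ i ∈ s, f i).IsHomogeneous s.card := by
  have := IsHomogeneous.prod s f (fun _ => 1) h
  simpa using this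

/-- The number of rows outside a window. -/
theorem card_out {k : ℕ} (a c : Fin k) (hac : a ≤ c) :
    (Finset.univ.filter fun l : Fin k => l < a ∨ c < l).card = k - ((c : ℕ) - a + 1) := by
  have h1 : (Finset.univ.filter fun l : Fin k => l < a ∨ c < l) = (Finset.Icc a c)ᶜ := by
    ext l
    simp only [Finset.mem_filter, Finset.mem_univ, true_and, Finset.mem_compl, Finset.mem_Icc,
      not_and_or, not_le]
  rw [h1, Finset.card_compl, Fin.card_Icc, Fintype.card_fin]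
  have : (a : ℕ) ≤ c := hac
  omega

theorem E0_le (k : ℕ) (b : Fin k → MvPolynomial (Fin 4) ℂ)
    (u v : ℕ → MvPolynomial (Fin 4) ℂ) (hb : ∀ l, (b l).IsHomogeneous 1)
    (hu : ∀ m, (u m).IsHomogeneous 1) (hv : ∀ m, (v m).IsHomogeneous 1) :
    E0 b u v ≤ HS 4 k := by
  have hP : ∀ (u : ℕ → MvPolynomial (Fin 4) ℂ), (∀ m, (u m).IsHomogeneous 1) →
      ∀ (j : Fin 4) (a c : Fin k), a ≤ c → (X j * Pw b u a c).IsHomogeneous k := by
    intro u hu j a c hac
    have h1 := prod_hom (Finset.univ.filter fun l : Fin k => l < a ∨ c < l) b (fun l _ => hb l)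
    have h2 := prod_hom (Finset.Ico (a : ℕ) c) u (fun l _ => hu l)
    have h3 := (isHomogeneous_X ℂ j).mul (h1.mul h2)
    rw [card_out a c hac, Nat.card_Ico] at h3
    have h4 : 1 + (k - ((c : ℕ) - a + 1) + ((c : ℕ) - a)) = k := by
      have := c.2
      omega
    rw [h4] at h3
    exact h3
  unfold E0
  rw [Submodule.span_le]
  rintro f ⟨j, a, c, hac, rfl | rfl⟩
  · exact hP u hu j a c hac
  · exact hP v hv j a c hac


/-- The member of the colon space given by a window. -/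
theorem window (h5 : DIV_stmt) {k n : ℕ} {U V : ℕ → ℕ} {μ : ℕ → ℂ}
    (hinj : ∀ l l', 1 ≤ l → l ≤ n → 1 ≤ l' → l' ≤ n → μ l = μ l' → l = l')
    (a c : Fin k) (hac : a ≤ c) (I : ℕ) (hI1 : 1 ≤ I) (hIn : I ≤ n) (hP : PIV U V μ a c I) :
    I - 1 ≤ (c : ℕ) - a + 1 ∧ ∃ w ∈ HS 4 (k - (I - 1)),
      (∏ l ∈ Finset.range (I - 1), ell (μ (l + 1))) * w ∈ E0 (bb k) (uu U μ) (vv V μ) ∧
      ∃ r : ℂ, r ≠ 0 ∧ pr (μ I) w = r • ((X 0 : MvPolynomial (Fin 3) ℂ) ^
        ((c : ℕ) - a + 1 - (I - 1)) * ∏ l ∈ Finset.univ.filter (fun l : Fin k => l < a ∨ c < l),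
          (X 1 - C (((l : ℕ) : ℂ)) * X 2)) := by
  obtain ⟨α, β, γ, δ, hz, hnz⟩ := hP
  have hac' : (a : ℕ) ≤ c := hac
  have hck : (c : ℕ) < k := c.2
  set f2 : MvPolynomial (Fin 2) ℂ :=
    (C α * X 0 + C β * X 1) * (∏ m ∈ Finset.Ico (a : ℕ) c, uu2 U μ m) +
      (C γ * X 0 + C δ * X 1) * (∏ m ∈ Finset.Ico (a : ℕ) c, vv2 V μ m) with hf2
  have hlin : ∀ x y : ℂ, (C x * X 0 + C y * X 1 : MvPolynomial (Fin 2) ℂ).IsHomogeneous 1 := by
    intro x y
    have e1 : (C x * X 0 : MvPolynomial (Fin 2) ℂ).IsHomogeneous 1 := by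
      simpa using (isHomogeneous_C (Fin 2) x).mul (isHomogeneous_X ℂ 0)
    have e2 : (C y * X 1 : MvPolynomial (Fin 2) ℂ).IsHomogeneous 1 := by
      simpa using (isHomogeneous_C (Fin 2) y).mul (isHomogeneous_X ℂ 1)
    exact e1.add e2
  have hf2h : f2 ∈ HS 2 ((c : ℕ) - a + 1) := by
    rw [mem_homogeneousSubmodule]
    have e1 := (hlin α β).mul (prod_hom (Finset.Ico (a : ℕ) c) (uu2 U μ)
      (fun l _ => uu2_hom U μ l))
    have e2 := (hlin γ δ).mul (prod_hom (Finset.Ico (a : ℕ) c) (vv2 V μ)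
      (fun l _ => vv2_hom V μ l))
    rw [Nat.card_Ico, add_comm 1] at e1 e2
    exact e1.add e2
  have hev : ∀ y : ℂ, eval ![y, 1] f2 =
      (α * y + β) * (∏ m ∈ Finset.Ico (a : ℕ) c, uval U μ m y) +
        (γ * y + δ) * (∏ m ∈ Finset.Ico (a : ℕ) c, vval V μ m y) := by
    intro y
    simp only [hf2, map_add, map_mul, eval_C, eval_X, map_prod, eval_uu2, eval_vv2,
      Matrix.cons_val_zero, Matrix.cons_val_one, mul_one]
  obtain ⟨hle, g, hg, hfg, hgnz⟩ := h5 I ((c : ℕ) - a + 1) μ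
    (fun l l' h1 h2 h3 h4 => hinj l l' h1 (h2.trans hIn) h3 (h4.trans hIn)) hI1 f2 hf2h
    (fun l h1 h2 => by rw [hev]; exact hz l h1 h2) (by rw [hev]; exact hnz)
  refine ⟨hle, rho g * ∏ l ∈ Finset.univ.filter (fun l : Fin k => l < a ∨ c < l), bb k l, ?_, ?_,
    eval ![μ I, 1] g, hgnz, ?_⟩
  · rw [mem_homogeneousSubmodule]
    have e1 : (rho g).IsHomogeneous ((c : ℕ) - a + 1 - (I - 1)) := rho_hom hg
    have e2 := e1.mul (prod_hom (Finset.univ.filter fun l : Fin k => l < a ∨ c < l) (bb k)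
      (fun l _ => bb_hom k l))
    rw [card_out a c hac] at e2
    have e3 : (c : ℕ) - a + 1 - (I - 1) + (k - ((c : ℕ) - a + 1)) = k - (I - 1) := by omega
    rw [e3] at e2
    exact e2
  · have e1 : (∏ l ∈ Finset.range (I - 1), ell (μ (l + 1))) * rho g = rho f2 := by
      rw [hfg, map_mul, map_prod]
      congr 1
      rw [Finset.prod_Ico_eq_prod_range]
      refine Finset.prod_congr rfl fun l _ => ?_
      rw [map_sub, map_mul, rho_X0, rho_X1, rho_C, add_comm 1 l]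
      rfl
    rw [← mul_assoc, e1, hf2]
    simp only [map_add, map_mul, map_prod, rho_X0, rho_X1, rho_C, rho_uu2, rho_vv2]
    have hm : ∀ (j : Fin 4) (x : ℂ),
        C x * (X j * Pw (bb k) (uu U μ) a c) ∈ E0 (bb k) (uu U μ) (vv V μ) := by
      intro j x
      rw [← smul_eq_C_mul]
      exact Submodule.smul_mem _ _ (Submodule.subset_span ⟨j, a, c, hac, Or.inl rfl⟩)
    have hm' : ∀ (j : Fin 4) (x : ℂ),
        C x * (X j * Pw (bb k) (vv V μ) a c) ∈ E0 (bb k) (uu U μ) (vv V μ) := by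
      intro j x
      rw [← smul_eq_C_mul]
      exact Submodule.smul_mem _ _ (Submodule.subset_span ⟨j, a, c, hac, Or.inr rfl⟩)
    have key := Submodule.add_mem _ (Submodule.add_mem _ (hm 0 α) (hm 1 β))
      (Submodule.add_mem _ (hm' 0 γ) (hm' 1 δ))
    convert key using 1
    simp only [Pw]
    ring
  · rw [map_mul, pr_rho _ hg, map_prod, smul_eq_C_mul, mul_assoc]
    congr 2
    refine Finset.prod_congr rfl fun l _ => ?_
    simp [bb, pr]

/-- The selected windows. -/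
abbrev WT (Jp : ℕ → ℕ → ℕ → Prop) (k I : ℕ) : Type :=
  {p : Fin k × Fin k // p.1 ≤ p.2 ∧ Jp p.1 p.2 I}

theorem card_windows (Jp : ℕ → ℕ → ℕ → Prop) (k I : ℕ)
    [Fintype (WT Jp k I)] :
    Fintype.card (WT Jp k I) = cnt Jp k I := by
  classical
  unfold cnt
  rw [Fintype.card_subtype]
  refine Finset.card_bij (fun p _ => ((p.1 : ℕ), (p.2 : ℕ))) ?_ ?_ ?_
  · rintro ⟨a, c⟩ h
    simp only [Finset.mem_filter, Finset.mem_univ, true_and] at h
    simp only [Finset.mem_filter, Finset.mem_product, Finset.mem_range]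
    exact ⟨⟨a.2, c.2⟩, h.1, h.2⟩
  · rintro ⟨a, c⟩ _ ⟨a', c'⟩ _ h
    simp only [Prod.mk.injEq] at h
    exact Prod.ext (Fin.ext h.1) (Fin.ext h.2)
  · rintro ⟨a, c⟩ h
    simp only [Finset.mem_filter, Finset.mem_product, Finset.mem_range] at h
    refine ⟨(⟨a, h.1.1⟩, ⟨c, h.1.2⟩), ?_, rfl⟩
    simp only [Finset.mem_filter, Finset.mem_univ, true_and]
    exact ⟨h.2.1, h.2.2⟩


open Classical in
theorem CERT (h1 : MULTI_stmt) (h2 : NEWOBJ_stmt) (h3 : WLI_stmt) (h4 : LEV0_stmt)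
    (h5 : DIV_stmt) : CERT_stmt := by
  intro k n s U V μ Jp hnk hinj hpiv hstep hDD
  have hk1 : 1 ≤ k := by omega
  refine h2 k s hk1 (bb k) (uu U μ) (vv V μ) (bb_hom k) (uu_hom U μ) (vv_hom V μ) ?_
  have hkn : k - n + n = k := by omega
  have hκ : Function.Injective (fun l : Fin k => ((l : ℕ) : ℂ)) := by
    intro a b hab
    exact Fin.ext (Nat.cast_injective hab)
  have hE : E0 (bb k) (uu U μ) (vv V μ) ≤ HS 4 k :=
    E0_le k (bb k) (uu U μ) (vv V μ) (bb_hom k) (uu_hom U μ) (vv_hom V μ)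
  have main := h1 s n (k - n) (by omega) hDD (fun i => μ (i + 1)) (E0 (bb k) (uu U μ) (vv V μ))
  rw [hkn] at main
  refine main hE ?_
  intro i hi
  -- the windows
  have hw : ∀ p : WT Jp k (i + 1),
      i ≤ (p.1.2 : ℕ) - p.1.1 + 1 ∧ ∃ w ∈ HS 4 (k - i),
      (∏ l ∈ Finset.range i, ell (μ (l + 1))) * w ∈ E0 (bb k) (uu U μ) (vv V μ) ∧
      ∃ r : ℂ, r ≠ 0 ∧ pr (μ (i + 1)) w = r • ((X 0 : MvPolynomial (Fin 3) ℂ) ^
        ((p.1.2 : ℕ) - p.1.1 + 1 - i) *
          ∏ l ∈ Finset.univ.filter (fun l : Fin k => l < p.1.1 ∨ p.1.2 < l),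
          (X 1 - C (((l : ℕ) : ℂ)) * X 2)) := by
    rintro ⟨⟨a, c⟩, hac, hJ⟩
    have := window h5 hinj a c hac (i + 1) (by omega) (by omega)
      (hpiv a c (i + 1) hac c.2 (by omega) (by omega) hJ)
    simpa using this
  choose hdeg w hwd hwE r hr0 hwr using hw
  have hcard : Fintype.card (WT Jp k (i + 1)) =
      cnt Jp k (i + 1) := card_windows Jp k (i + 1)
  have hineq := hstep (i + 1) (by omega) (by omega)
  have ea : k - (i + 1) + 3 = k - i + 2 := by omega
  have eb : k - (i + 1) + 1 = k - i := by omega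
  rw [ea, eb] at hineq
  rcases Nat.eq_zero_or_pos i with h0 | hpos
  · -- the first plane
    subst h0
    have hc : Fintype.card (Fin (k + 1) ⊕ WT Jp k (0 + 1)) = k + 1 + cnt Jp k (0 + 1) := by
      rw [Fintype.card_sum, Fintype.card_fin, hcard]
    let W : Fin (k + 1) ⊕ WT Jp k (0 + 1) → MvPolynomial (Fin 4) ℂ :=
      Sum.elim (fun j : Fin (k + 1) => (X 2 : MvPolynomial (Fin 4) ℂ) ^ (j : ℕ) *
        X 3 ^ (k - (j : ℕ))) w
    let e : Fin (k + 1 + cnt Jp k (0 + 1)) ≃ Fin (k + 1) ⊕ WT Jp k (0 + 1) :=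
      (finCongr hc.symm).trans (Fintype.equivFin _).symm
    refine ⟨k + 1 + cnt Jp k (0 + 1), fun a => W (e a), ?_, ?_, ?_, ?_⟩
    · intro a
      change W (e a) ∈ _
      rcases e a with j | p
      · simp only [W, Sum.elim_inl]
        have e1 := ((isHomogeneous_X ℂ (2 : Fin 4)).pow (j : ℕ)).mul
          ((isHomogeneous_X ℂ (3 : Fin 4)).pow (k - (j : ℕ)))
        have e2 : 1 * (j : ℕ) + 1 * (k - (j : ℕ)) = k - 0 := by
          have := j.2
          omega
        rw [e2] at e1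
        exact e1
      · simp only [W, Sum.elim_inr]
        exact hwd p
    · intro a
      simp only [Finset.range_zero, Finset.prod_empty, one_mul]
      rcases e a with j | p
      · simp only [W, Sum.elim_inl]
        exact h4 k hk1 (fun l : Fin k => ((l : ℕ) : ℂ)) hκ _ _ j (by have := j.2; omega)
      · simp only [W, Sum.elim_inr]
        simpa using hwE p
    · have hWLI := (h3 k (fun l : Fin k => ((l : ℕ) : ℂ)) hκ).2
      -- restrict to our windows
      let φ : Fin (k + 1) ⊕ WT Jp k (0 + 1) → Fin (k + 1) ⊕ {p : Fin k × Fin k // p.1 ≤ p.2} :=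
        Sum.map id (fun p => ⟨p.1, p.2.1⟩)
      have hφ : Function.Injective φ := by
        apply Function.Injective.sumMap Function.injective_id
        intro p q hpq
        exact Subtype.ext (Subtype.mk.inj hpq)
      have hLI := hWLI.comp φ hφ
      let cc : Fin (k + 1) ⊕ WT Jp k (0 + 1) → ℂˣ := Sum.elim (fun _ => 1) (fun p => Units.mk0 (r p) (hr0 p))
      have hLI2 := hLI.units_smul cc
      have hLI3 := hLI2.comp e e.injective
      convert hLI3 using 1
      funext a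
      simp only [Function.comp_apply, Pi.smul_apply']
      rcases e a with j | p
      · simp only [W, Sum.elim_inl, φ, Sum.map_inl, id_eq, cc, one_smul, map_mul, map_pow]
        simp [pr]
      · simp only [W, Sum.elim_inr, φ, Sum.map_inr, cc]
        rw [hwr p]
        simp only [Nat.sub_zero, Units.smul_def, Units.val_mk0]
    · simpa [add_assoc] using hineq
  · -- the other planes
    let e : Fin (cnt Jp k (i + 1)) ≃ WT Jp k (i + 1) :=
      (finCongr hcard.symm).trans (Fintype.equivFin _).symm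
    refine ⟨cnt Jp k (i + 1), fun a => w (e a), fun a => hwd _, fun a => hwE _, ?_, ?_⟩
    · have hWLI := (h3 k (fun l : Fin k => ((l : ℕ) : ℂ)) hκ).1 i
      let φ : WT Jp k (i + 1) → {p : Fin k × Fin k // p.1 ≤ p.2 ∧ i ≤ (p.2 : ℕ) - p.1 + 1} :=
        fun p => ⟨p.1, p.2.1, hdeg p⟩
      have hφ : Function.Injective φ := by
        intro p q hpq
        exact Subtype.ext (Subtype.mk.inj hpq)
      have hLI := hWLI.comp φ hφ
      let cc : WT Jp k (i + 1) → ℂˣ := fun p => Units.mk0 (r p) (hr0 p)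
      have hLI2 := hLI.units_smul cc
      have hLI3 := hLI2.comp e e.injective
      convert hLI3 using 1
      funext a
      simp only [Function.comp_apply, Pi.smul_apply', φ, cc]
      rw [hwr (e a)]
      simp only [Units.smul_def, Units.val_mk0]
    · have : ¬ (i + 1 = 1) := by omega
      rw [if_neg this, add_zero] at hineq
      exact hineq

end Pool.Agent.Helper61.DS

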